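import Mathlib

set_option autoImplicit false

namespace Pool.Agent.Results.MP_e7d137_lc.Q2
open Finset

/-- a marginal scenario: contains `∅` and is closed under subsets -/
def Scenario {n : ℕ} (M : Finset (Finset (Fin n))) : Prop :=
  ∅ ∈ M ∧ ∀ S ∈ M, ∀ T ⊆ S, T ∈ M

/-- a facet: an inclusion-maximal member -/
def Facet {n : ℕ} (M : Finset (Finset (Fin n))) (F : Finset (Fin n)) : Prop :=
  F ∈ M ∧ ∀ S ∈ M, F ⊆ S → S = F

/-- Vorob'ev regularity: the facets can be listed with the running intersection property -/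
def Regular {n : ℕ} (M : Finset (Finset (Fin n))) : Prop :=
  ∃ (k : ℕ) (F : Fin k → Finset (Fin n)), Function.Injective F ∧
    (∀ S, Facet M S ↔ ∃ j, F j = S) ∧
    ∀ j : Fin k, 0 < j.val → ∃ i, i < j ∧ F j ∩ (univ.filter (· < j)).biUnion F ⊆ F i

def Polymatroid {n : ℕ} (f : Finset (Fin n) → ℝ) : Prop :=
  f ∅ = 0 ∧ (∀ S, 0 ≤ f S) ∧ (∀ S T, S ⊆ T → f S ≤ f T) ∧
    ∀ S T, f (S ∪ T) + f (S ∩ T) ≤ f S + f T

/-- a polymatroid given only on `M` (the values of `g` outside `M` play no role) -/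
def PolyOn {n : ℕ} (M : Finset (Finset (Fin n))) (g : Finset (Fin n) → ℝ) : Prop :=
  g ∅ = 0 ∧ (∀ S ∈ M, 0 ≤ g S) ∧ (∀ S ∈ M, ∀ T ∈ M, S ⊆ T → g S ≤ g T) ∧
    ∀ S ∈ M, ∀ T ∈ M, S ∪ T ∈ M → g (S ∪ T) + g (S ∩ T) ≤ g S + g T

def NonContextual {n : ℕ} (M : Finset (Finset (Fin n))) (g : Finset (Fin n) → ℝ) : Prop :=
  ∃ f, Polymatroid f ∧ ∀ S ∈ M, f S = g S

def F0 : Fin 2 → Finset (Fin 5) := ![{0, 1, 2, 3}, {0, 1, 4}]

def M0 : Finset (Finset (Fin 5)) := (F0 0).powerset ∪ (F0 1).powerset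

def G (S : Finset (Fin 5)) : ℕ :=
  if S = {4} then 1 else if S = {2, 3} then 4 else
    if (S.erase 4).card = 0 then 0 else min 4 ((S.erase 4).card + 1)

theorem s1 : ∀ S ∈ M0, ∀ T ⊆ S, T ∈ M0 := by decide +kernel
theorem s2 : ∀ S, (S ∈ M0 ∧ ∀ T ∈ M0, S ⊆ T → T = S) ↔ ∃ j, F0 j = S := by decide +kernel
theorem s3 : ∀ j : Fin 2, 0 < j.val →
    ∃ i, i < j ∧ F0 j ∩ (univ.filter (· < j)).biUnion F0 ⊆ F0 i := by decide +kernel
theorem s4 : ∀ S ∈ M0, ∀ T ∈ M0, S ⊆ T → G S ≤ G T := by decide +kernel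
theorem s5 : ∀ S ∈ M0, ∀ T ∈ M0, S ∪ T ∈ M0 → G (S ∪ T) + G (S ∩ T) ≤ G S + G T := by
  decide +kernel
theorem s6 : Function.Injective F0 := by decide +kernel

theorem result : ∃ (n : ℕ) (M : Finset (Finset (Fin n))), 1 ≤ n ∧ Scenario M ∧ Regular M ∧
    ∃ g, PolyOn M g ∧ ¬ NonContextual M g := by
  refine ⟨5, M0, by norm_num, ⟨by decide +kernel, s1⟩, ⟨2, F0, s6, s2, s3⟩, fun S => (G S : ℝ),
    ⟨?_, fun S _ => Nat.cast_nonneg _, fun S hS T hT h => ?_, fun S hS T hT h => ?_⟩, ?_⟩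
  · have : G ∅ = 0 := by decide +kernel
    simp [this]
  · show (G S : ℝ) ≤ G T
    exact_mod_cast s4 S hS T hT h
  · show (G (S ∪ T) : ℝ) + G (S ∩ T) ≤ G S + G T
    exact_mod_cast s5 S hS T hT h
  · rintro ⟨f, ⟨-, -, mono, sub⟩, hf⟩
    have v : ∀ (S : Finset (Fin 5)) (k : ℕ), S ∈ M0 ∧ G S = k → f S = k := by
      rintro S k ⟨h1, h2⟩
      rw [hf S h1, ← h2]
    have sb : ∀ S T U V : Finset (Fin 5), S ∪ T = U ∧ S ∩ T = V → f U + f V ≤ f S + f T := by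
      rintro S T U V ⟨rfl, rfl⟩
      exact sub S T
    have a0 := v {0} 2 (by decide +kernel)
    have a1 := v {1} 2 (by decide +kernel)
    have a4 := v {4} 1 (by decide +kernel)
    have a04 := v {0, 4} 2 (by decide +kernel)
    have a14 := v {1, 4} 2 (by decide +kernel)
    have a02 := v {0, 2} 3 (by decide +kernel)
    have a12 := v {1, 2} 3 (by decide +kernel)
    have a03 := v {0, 3} 3 (by decide +kernel)
    have a13 := v {1, 3} 3 (by decide +kernel)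
    have a23 := v {2, 3} 4 (by decide +kernel)
    have a012 := v {0, 1, 2} 4 (by decide +kernel)
    have a013 := v {0, 1, 3} 4 (by decide +kernel)
    have b1 := sb {0, 2} {0, 4} {0, 2, 4} {0} (by decide +kernel)
    have b2 := sb {1, 2} {1, 4} {1, 2, 4} {1} (by decide +kernel)
    have b3 := sb {0, 2, 4} {1, 2, 4} {0, 1, 2, 4} {2, 4} (by decide +kernel)
    have b4 := mono {0, 1, 2} {0, 1, 2, 4} (by decide +kernel)
    have c1 := sb {0, 3} {0, 4} {0, 3, 4} {0} (by decide +kernel)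
    have c2 := sb {1, 3} {1, 4} {1, 3, 4} {1} (by decide +kernel)
    have c3 := sb {0, 3, 4} {1, 3, 4} {0, 1, 3, 4} {3, 4} (by decide +kernel)
    have c4 := mono {0, 1, 3} {0, 1, 3, 4} (by decide +kernel)
    have d1 := sb {2, 4} {3, 4} {2, 3, 4} {4} (by decide +kernel)
    have d2 := mono {2, 3} {2, 3, 4} (by decide +kernel)
    push_cast at a0 a1 a4 a04 a14 a02 a12 a03 a13 a23 a012 a013
    linarith

end Pool.Agent.Results.MP_e7d137_lc.Q2
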